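import Mathlib

set_option autoImplicit false

open Complex Finset

namespace Pool.Agent.Helper960.Clark

noncomputable def phi (p : ℝ) (x : ℂ) (z : ℂ) : ℂ :=
  x * exp ((p * (1 + z) / 2 - 1) * (Real.log ‖x‖ : ℝ))

noncomputable def psi (p q N : ℝ) (y : ℂ) (z : ℂ) : ℂ :=
  y * exp ((q * (1 - z) / 2 - 1) * (Real.log ‖y‖ : ℝ)
    + (p * (1 + z) / 2 - q * (1 - z) / 2) * (Real.log N : ℝ))

lemma norm_phi {p : ℝ} (x z : ℂ) (h : 0 < p * (1 + z.re) / 2) :
    ‖phi p x z‖ = ‖x‖ ^ (p * (1 + z.re) / 2) := by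
  unfold phi
  by_cases hx : x = 0
  · subst hx
    rw [zero_mul, norm_zero, Real.zero_rpow h.ne']
  have hx' : 0 < ‖x‖ := norm_pos_iff.2 hx
  rw [norm_mul, Complex.norm_exp]
  have hre : (((p : ℂ) * (1 + z) / 2 - 1) * ((Real.log ‖x‖ : ℝ) : ℂ)).re
      = (p * (1 + z.re) / 2 - 1) * Real.log ‖x‖ := by
    rw [Complex.re_mul_ofReal]
    congr 1
    simp
  rw [hre, Real.rpow_def_of_pos hx']
  nth_rewrite 1 [← Real.exp_log hx']
  rw [← Real.exp_add]
  congr 1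
  ring

lemma norm_psi {p q N : ℝ} (hN : 0 < N) {y : ℂ} (hy : y ≠ 0) (z : ℂ) :
    ‖psi p q N y z‖ = ‖y‖ ^ (q * (1 - z.re) / 2) * N ^ (p * (1 + z.re) / 2 - q * (1 - z.re) / 2) := by
  unfold psi
  have hy' : 0 < ‖y‖ := norm_pos_iff.2 hy
  rw [norm_mul, Complex.norm_exp]
  have hre : (((q : ℂ) * (1 - z) / 2 - 1) * ((Real.log ‖y‖ : ℝ) : ℂ)
      + ((p : ℂ) * (1 + z) / 2 - (q : ℂ) * (1 - z) / 2) * ((Real.log N : ℝ) : ℂ)).re
      = (q * (1 - z.re) / 2 - 1) * Real.log ‖y‖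
        + (p * (1 + z.re) / 2 - q * (1 - z.re) / 2) * Real.log N := by
    rw [Complex.add_re, Complex.re_mul_ofReal, Complex.re_mul_ofReal]
    congr 1
    · congr 1
      simp
    · congr 1
      simp
  rw [hre, Real.rpow_def_of_pos hy', Real.rpow_def_of_pos hN]
  nth_rewrite 1 [← Real.exp_log hy']
  rw [← Real.exp_add, ← Real.exp_add]
  congr 1
  ring

lemma phi_diff (p : ℝ) (x : ℂ) : Differentiable ℂ (phi p x) := by
  unfold phi
  fun_prop

lemma psi_diff (p q N : ℝ) (y : ℂ) : Differentiable ℂ (psi p q N y) := by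
  unfold psi
  fun_prop

lemma phi_eq {p : ℝ} (x z : ℂ) (h : (p : ℂ) * (1 + z) / 2 = 1) : phi p x z = x := by
  unfold phi
  rw [h]
  simp

lemma psi_eq {p q N : ℝ} (y z : ℂ) (h : (p : ℂ) * (1 + z) / 2 = 1) (h' : (q : ℂ) * (1 - z) / 2 = 1) :
    psi p q N y z = y := by
  unfold psi
  rw [h, h']
  simp

lemma exp_lin_bdd (a b : ℝ) {t : ℝ} (h0 : 0 ≤ t) (h1 : t ≤ 1) : Real.exp (a * t + b) ≤ Real.exp (|a| + |b|) := by
  apply Real.exp_le_exp.2
  have h2 : a * t ≤ |a| := by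
    calc a * t ≤ |a| * t := by gcongr; exact le_abs_self a
      _ ≤ |a| * 1 := by gcongr
      _ = |a| := mul_one _
  linarith [le_abs_self b]

lemma phi_bdd (p : ℝ) (x : ℂ) : ∃ C : ℝ, ∀ z : ℂ, 0 ≤ z.re → z.re ≤ 1 → ‖phi p x z‖ ≤ C := by
  refine ⟨‖x‖ * Real.exp (|p / 2 * Real.log ‖x‖| + |(p / 2 - 1) * Real.log ‖x‖|), fun z h0 h1 => ?_⟩
  unfold phi
  rw [norm_mul, Complex.norm_exp]
  gcongr
  have hre : (((p : ℂ) * (1 + z) / 2 - 1) * ((Real.log ‖x‖ : ℝ) : ℂ)).re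
      = (p / 2 * Real.log ‖x‖) * z.re + (p / 2 - 1) * Real.log ‖x‖ := by
    rw [Complex.re_mul_ofReal]
    have : ((p : ℂ) * (1 + z) / 2 - 1).re = p * (1 + z.re) / 2 - 1 := by simp
    rw [this]
    ring
  rw [hre]
  exact Real.exp_le_exp.1 (exp_lin_bdd _ _ h0 h1)

lemma psi_bdd (p q N : ℝ) (y : ℂ) :
    ∃ C : ℝ, ∀ z : ℂ, 0 ≤ z.re → z.re ≤ 1 → ‖psi p q N y z‖ ≤ C := by
  refine ⟨‖y‖ * Real.exp (|(-(q / 2) * Real.log ‖y‖ + (p / 2 + q / 2) * Real.log N)| +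
    |(q / 2 - 1) * Real.log ‖y‖ + (p / 2 - q / 2) * Real.log N|), fun z h0 h1 => ?_⟩
  unfold psi
  rw [norm_mul, Complex.norm_exp]
  gcongr
  have hre : (((q : ℂ) * (1 - z) / 2 - 1) * ((Real.log ‖y‖ : ℝ) : ℂ)
      + ((p : ℂ) * (1 + z) / 2 - (q : ℂ) * (1 - z) / 2) * ((Real.log N : ℝ) : ℂ)).re
      = (-(q / 2) * Real.log ‖y‖ + (p / 2 + q / 2) * Real.log N) * z.re +
        ((q / 2 - 1) * Real.log ‖y‖ + (p / 2 - q / 2) * Real.log N) := by
    rw [Complex.add_re, Complex.re_mul_ofReal, Complex.re_mul_ofReal]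
    have e1 : ((q : ℂ) * (1 - z) / 2 - 1).re = q * (1 - z.re) / 2 - 1 := by simp
    have e2 : ((p : ℂ) * (1 + z) / 2 - (q : ℂ) * (1 - z) / 2).re
      = p * (1 + z.re) / 2 - q * (1 - z.re) / 2 := by simp
    rw [e1, e2]
    ring
  rw [hre]
  exact Real.exp_le_exp.1 (exp_lin_bdd _ _ h0 h1)

variable {α β K : Type*} [Fintype α] [Fintype β] [Fintype K] [DecidableEq K]

/-- the inner sums of the mixed norm -/
noncomputable def EE (π : β → K) (q : ℝ) (y : β → ℂ) (k : K) : ℝ :=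
  ∑ b ∈ univ.filter (fun b => π b = k), ‖y b‖ ^ q

lemma EE_nonneg (π : β → K) (q : ℝ) (y : β → ℂ) (k : K) : 0 ≤ EE π q y k :=
  Finset.sum_nonneg fun _ _ => by positivity

lemma EE_pos (π : β → K) {q : ℝ} (y : β → ℂ) {b : β} (hb : y b ≠ 0) : 0 < EE π q y (π b) := by
  have h1 : 0 < ‖y b‖ ^ q := Real.rpow_pos_of_pos (norm_pos_iff.2 hb) _
  refine lt_of_lt_of_le h1 ?_
  unfold EE
  refine Finset.single_le_sum (f := fun b => ‖y b‖ ^ q) (fun i _ => by positivity) ?_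
  simp

/-- **Interpolation lemma**, normalised form. -/
lemma interp_one (π : β → K) (M : α → β → ℂ) {C p q : ℝ} (hC : 0 ≤ C) (hp1 : 1 < p) (hp2 : p ≤ 2)
    (hpq : 1 / p + 1 / q = 1)
    (h2 : ∀ (x : α → ℂ) (y : β → ℂ), (∑ a, ‖x a‖ ^ 2) ≤ 1 → (∑ b, ‖y b‖ ^ 2) ≤ 1 →
      ‖∑ a, ∑ b, M a b * x a * y b‖ ≤ C)
    (h1 : ∀ (x : α → ℂ) (y : β → ℂ) (m : K → ℝ), (∑ a, ‖x a‖) ≤ 1 → (∀ b, ‖y b‖ ≤ m (π b)) →
      (∀ k, 0 ≤ m k) → (∑ k, m k) ≤ 1 → ‖∑ a, ∑ b, M a b * x a * y b‖ ≤ 1)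
    (x : α → ℂ) (y : β → ℂ) (hx : (∑ a, ‖x a‖ ^ p) ≤ 1) (hy : (∑ k, EE π q y k ^ (p / q)) ≤ 1) :
    ‖∑ a, ∑ b, M a b * x a * y b‖ ≤ C ^ (2 / q) := by
  have hp0 : 0 < p := by linarith
  have hq0 : 0 < q := by
    have : 0 < 1 / q := by
      have : 1 / p < 1 := by rw [div_lt_one hp0]; exact hp1
      linarith
    exact one_div_pos.1 this
  set N : K → ℝ := fun k => EE π q y k ^ (1 / q) with hN
  have hNpos : ∀ b, y b ≠ 0 → 0 < N (π b) := fun b hb => Real.rpow_pos_of_pos (EE_pos π y hb) _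
  have hNnn : ∀ k, 0 ≤ N k := fun k => Real.rpow_nonneg (EE_nonneg π q y k) _
  have hNp : ∀ k, N k ^ p = EE π q y k ^ (p / q) := by
    intro k
    rw [hN]
    simp only
    rw [← Real.rpow_mul (EE_nonneg π q y k)]
    congr 1
    field_simp
  set θ : ℝ := 2 / p - 1 with hθ
  have hθ0 : 0 ≤ θ := by
    rw [hθ, sub_nonneg, le_div_iff₀ hp0]; linarith
  have hθ1 : θ ≤ 1 := by
    rw [hθ]
    have : 2 / p < 2 := by rw [div_lt_iff₀ hp0]; linarith
    linarith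
  have hpθ : p * (1 + θ) / 2 = 1 := by
    rw [hθ]; field_simp; ring
  have hqθ : q * (1 - θ) / 2 = 1 := by
    have : 1 - θ = 2 / q := by
      rw [hθ]
      have e1 : 2 / p = 2 * (1 / p) := by ring
      have e2 : 2 / q = 2 * (1 / q) := by ring
      rw [e1, e2]
      linarith
    rw [this]
    field_simp
  let F : ℂ → ℂ := fun z => ∑ a, ∑ b, M a b * phi p (x a) z * psi p q (N (π b)) (y b) z
  have hFd : Differentiable ℂ F := by
    refine Differentiable.fun_sum fun a _ => Differentiable.fun_sum fun b _ => ?_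
    exact (((differentiable_const _).mul (phi_diff p (x a))).mul (psi_diff p q _ _))
  have hFθ : F (θ : ℂ) = ∑ a, ∑ b, M a b * x a * y b := by
    have e1 : (p : ℂ) * (1 + (θ : ℂ)) / 2 = 1 := by exact_mod_cast hpθ
    have e2 : (q : ℂ) * (1 - (θ : ℂ)) / 2 = 1 := by exact_mod_cast hqθ
    refine Finset.sum_congr rfl fun a _ => Finset.sum_congr rfl fun b _ => ?_
    rw [phi_eq _ _ e1, psi_eq _ _ e1 e2]
  have hB : BddAbove ((norm ∘ F) '' Complex.HadamardThreeLines.verticalClosedStrip 0 1) := by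
    choose c1 hc1 using fun a => phi_bdd p (x a)
    choose c2 hc2 using fun b => psi_bdd p q (N (π b)) (y b)
    refine ⟨∑ a, ∑ b, ‖M a b‖ * |c1 a| * |c2 b|, ?_⟩
    rintro _ ⟨z, hz, rfl⟩
    have hz' : 0 ≤ z.re ∧ z.re ≤ 1 := hz
    simp only [Function.comp]
    refine (norm_sum_le _ _).trans (Finset.sum_le_sum fun a _ => ?_)
    refine (norm_sum_le _ _).trans (Finset.sum_le_sum fun b _ => ?_)
    rw [norm_mul, norm_mul]
    have := (hc1 a z hz'.1 hz'.2).trans (le_abs_self _)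
    have := (hc2 b z hz'.1 hz'.2).trans (le_abs_self _)
    gcongr
  have hψ0 : ∀ z : ℂ, z.re = 0 → (∑ b, ‖psi p q (N (π b)) (y b) z‖ ^ 2) ≤ 1 := by
    intro z hz
    have e1 : ∀ b, ‖psi p q (N (π b)) (y b) z‖ ^ 2 = ‖y b‖ ^ q * N (π b) ^ (p - q) := by
      intro b
      by_cases hb : y b = 0
      · rw [hb]
        unfold psi
        simp [Real.zero_rpow hq0.ne']
      rw [norm_psi (hNpos b hb) hb z, hz, mul_pow, ← Real.rpow_natCast, ← Real.rpow_natCast,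
        ← Real.rpow_mul (norm_nonneg _), ← Real.rpow_mul (hNpos b hb).le]
      congr 1
      · congr 1
        push_cast
        ring
      · congr 1
        push_cast
        ring
    simp_rw [e1]
    rw [← Finset.sum_fiberwise_of_maps_to (s := univ) (t := (univ : Finset K)) (g := π)
      (fun b _ => mem_univ _)]
    refine le_trans (Finset.sum_le_sum fun k _ => ?_) hy
    have e2 : ∑ b ∈ univ.filter (fun b => π b = k), ‖y b‖ ^ q * N (π b) ^ (p - q)
        = EE π q y k * N k ^ (p - q) := by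
      unfold EE
      rw [Finset.sum_mul]
      refine Finset.sum_congr rfl fun b hb => ?_
      rw [(Finset.mem_filter.1 hb).2]
    rw [e2]
    rcases (EE_nonneg π q y k).eq_or_lt with h0 | hpos
    · rw [← h0, zero_mul]
      exact Real.rpow_nonneg le_rfl _
    · have hNk : 0 < N k := Real.rpow_pos_of_pos hpos _
      have e3 : EE π q y k = N k ^ q := by
        rw [hN]
        simp only
        rw [← Real.rpow_mul hpos.le, one_div_mul_cancel hq0.ne', Real.rpow_one]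
      rw [← hNp k]
      nth_rewrite 1 [e3]
      rw [← Real.rpow_add hNk]
      apply le_of_eq
      congr 1
      ring
  have hψ1 : ∀ z : ℂ, z.re = 1 → ∀ b, ‖psi p q (N (π b)) (y b) z‖ ≤ N (π b) ^ p := by
    intro z hz b
    by_cases hb : y b = 0
    · rw [hb]
      unfold psi
      rw [zero_mul, norm_zero]
      exact Real.rpow_nonneg (hNnn _) _
    rw [norm_psi (hNpos b hb) hb z, hz]
    have e1 : q * (1 - 1) / 2 = 0 := by ring
    have e2 : p * (1 + 1) / 2 - q * (1 - 1) / 2 = p := by ring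
    rw [e1, show p * (1 + 1) / 2 - 0 = p by ring, Real.rpow_zero, one_mul]
  have ha : ∀ z ∈ Complex.re ⁻¹' ({0} : Set ℝ), ‖F z‖ ≤ C := by
    intro z hz
    have hz : z.re = 0 := hz
    refine h2 (fun a => phi p (x a) z) (fun b => psi p q (N (π b)) (y b) z) ?_ (hψ0 z hz)
    refine le_trans (le_of_eq ?_) hx
    refine Finset.sum_congr rfl fun a _ => ?_
    rw [norm_phi _ _ (by rw [hz]; linarith), hz, ← Real.rpow_natCast, ← Real.rpow_mul (norm_nonneg _)]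
    congr 1
    push_cast
    ring
  have hb : ∀ z ∈ Complex.re ⁻¹' ({1} : Set ℝ), ‖F z‖ ≤ 1 := by
    intro z hz
    have hz : z.re = 1 := hz
    refine h1 (fun a => phi p (x a) z) (fun b => psi p q (N (π b)) (y b) z) (fun k => N k ^ p) ?_
      (hψ1 z hz) (fun k => Real.rpow_nonneg (hNnn k) _) ?_
    · refine le_trans (le_of_eq ?_) hx
      refine Finset.sum_congr rfl fun a _ => ?_
      rw [norm_phi _ _ (by rw [hz]; linarith), hz]
      congr 1
      ring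
    · simp_rw [hNp]
      exact hy
  have hmem : (θ : ℂ) ∈ Complex.HadamardThreeLines.verticalClosedStrip 0 1 := by
    show (θ : ℂ).re ∈ Set.Icc 0 1
    rw [Complex.ofReal_re]
    exact ⟨hθ0, hθ1⟩
  have := Complex.HadamardThreeLines.norm_le_interp_of_mem_verticalClosedStrip₀₁' F hmem
    hFd.diffContOnCl hB ha hb
  rw [hFθ, Complex.ofReal_re, Real.one_rpow, mul_one] at this
  have e : 1 - θ = 2 / q := by
    have : (1 - θ) = (q * (1 - θ) / 2) * (2 / q) := by field_simp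
    rw [this, hqθ, one_mul]
  rwa [e] at this

end Pool.Agent.Helper960.Clark
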