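import Pool.Agent.Helper960.Clark.Interp

set_option autoImplicit false
set_option linter.unusedSectionVars false

open Complex Finset

namespace Pool.Agent.Helper960.Clark

variable {α β K : Type*} [Fintype α] [Fintype β] [Fintype K] [DecidableEq K]

lemma norm_div_rpow_rpow {p : ℝ} (hp : 0 < p) (P : ℝ) (hP : 0 < P) (x : ℂ) {r : ℝ} :
    ‖x / ((P ^ (1 / p) : ℝ) : ℂ)‖ ^ r = ‖x‖ ^ r * P ^ (-(r / p)) := by
  have h0 : 0 < P ^ (1 / p) := Real.rpow_pos_of_pos hP _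
  rw [norm_div, Complex.norm_real, Real.norm_of_nonneg h0.le, Real.div_rpow (norm_nonneg _) h0.le,
    ← Real.rpow_mul hP.le, Real.rpow_neg hP.le, div_eq_mul_inv]
  congr 3
  ring

/-- **Interpolation lemma**, homogeneous form. -/
lemma interp (π : β → K) (M : α → β → ℂ) {C p q : ℝ} (hC : 0 ≤ C) (hp1 : 1 < p) (hp2 : p ≤ 2)
    (hpq : 1 / p + 1 / q = 1)
    (h2 : ∀ (x : α → ℂ) (y : β → ℂ), (∑ a, ‖x a‖ ^ 2) ≤ 1 → (∑ b, ‖y b‖ ^ 2) ≤ 1 →
      ‖∑ a, ∑ b, M a b * x a * y b‖ ≤ C)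
    (h1 : ∀ (x : α → ℂ) (y : β → ℂ) (m : K → ℝ), (∑ a, ‖x a‖) ≤ 1 → (∀ b, ‖y b‖ ≤ m (π b)) →
      (∀ k, 0 ≤ m k) → (∑ k, m k) ≤ 1 → ‖∑ a, ∑ b, M a b * x a * y b‖ ≤ 1)
    (x : α → ℂ) (y : β → ℂ) :
    ‖∑ a, ∑ b, M a b * x a * y b‖ ≤
      C ^ (2 / q) * (∑ a, ‖x a‖ ^ p) ^ (1 / p) * (∑ k, EE π q y k ^ (p / q)) ^ (1 / p) := by
  have hp0 : 0 < p := by linarith
  have hq0 : 0 < q := by
    have : 0 < 1 / q := by
      have : 1 / p < 1 := by rw [div_lt_one hp0]; exact hp1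
      linarith
    exact one_div_pos.1 this
  set P := ∑ a, ‖x a‖ ^ p with hP
  set Q := ∑ k, EE π q y k ^ (p / q) with hQ
  have hPnn : 0 ≤ P := Finset.sum_nonneg fun _ _ => by positivity
  have hQnn : 0 ≤ Q := Finset.sum_nonneg fun k _ => Real.rpow_nonneg (EE_nonneg π q y k) _
  have hrhs : 0 ≤ C ^ (2 / q) * P ^ (1 / p) * Q ^ (1 / p) := by positivity
  rcases hPnn.eq_or_lt with hP0 | hPpos
  · have hx : ∀ a, x a = 0 := by
      intro a
      have h := (Finset.sum_eq_zero_iff_of_nonneg (fun a _ => by positivity)).1 hP0.symm a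
        (Finset.mem_univ a)
      by_contra hne
      exact (Real.rpow_pos_of_pos (norm_pos_iff.2 hne) p).ne' h
    have : ∑ a, ∑ b, M a b * x a * y b = 0 := by
      refine Finset.sum_eq_zero fun a _ => Finset.sum_eq_zero fun b _ => ?_
      rw [hx a]; ring
    rw [this, norm_zero]
    exact hrhs
  rcases hQnn.eq_or_lt with hQ0 | hQpos
  · have hy : ∀ b, y b = 0 := by
      intro b
      by_contra hne
      have h := (Finset.sum_eq_zero_iff_of_nonneg
        (fun k _ => Real.rpow_nonneg (EE_nonneg π q y k) _)).1 hQ0.symm (π b) (Finset.mem_univ _)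
      exact (Real.rpow_pos_of_pos (EE_pos π y hne) _).ne' h
    have : ∑ a, ∑ b, M a b * x a * y b = 0 := by
      refine Finset.sum_eq_zero fun a _ => Finset.sum_eq_zero fun b _ => ?_
      rw [hy b]; ring
    rw [this, norm_zero]
    exact hrhs
  have hP' : 0 < P ^ (1 / p) := Real.rpow_pos_of_pos hPpos _
  have hQ' : 0 < Q ^ (1 / p) := Real.rpow_pos_of_pos hQpos _
  have key := interp_one π M hC hp1 hp2 hpq h2 h1 (fun a => x a / ((P ^ (1 / p) : ℝ) : ℂ))
    (fun b => y b / ((Q ^ (1 / p) : ℝ) : ℂ)) ?_ ?_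
  · have e : ∑ a, ∑ b, M a b * (x a / ((P ^ (1 / p) : ℝ) : ℂ)) * (y b / ((Q ^ (1 / p) : ℝ) : ℂ))
        = (∑ a, ∑ b, M a b * x a * y b) / (((P ^ (1 / p) * Q ^ (1 / p) : ℝ)) : ℂ) := by
      rw [Finset.sum_div]
      refine Finset.sum_congr rfl fun a _ => ?_
      rw [Finset.sum_div]
      refine Finset.sum_congr rfl fun b _ => ?_
      have h1 : ((P ^ (1 / p) : ℝ) : ℂ) ≠ 0 := by exact_mod_cast hP'.ne'
      have h2 : ((Q ^ (1 / p) : ℝ) : ℂ) ≠ 0 := by exact_mod_cast hQ'.ne'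
      push_cast
      field_simp
    rw [e, norm_div, Complex.norm_real, Real.norm_of_nonneg (by positivity),
      div_le_iff₀ (by positivity)] at key
    calc _ ≤ _ := key
      _ = _ := by ring
  · simp_rw [norm_div_rpow_rpow hp0 P hPpos]
    rw [← Finset.sum_mul, ← hP, div_self hp0.ne', Real.rpow_neg_one, mul_inv_cancel₀ hPpos.ne']
  · have e1 : ∀ k, EE π q (fun b => y b / ((Q ^ (1 / p) : ℝ) : ℂ)) k ^ (p / q)
        = EE π q y k ^ (p / q) * Q⁻¹ := by
      intro k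
      have : EE π q (fun b => y b / ((Q ^ (1 / p) : ℝ) : ℂ)) k = EE π q y k * Q ^ (-(q / p)) := by
        unfold EE
        simp_rw [norm_div_rpow_rpow hp0 Q hQpos]
        rw [← Finset.sum_mul]
      rw [this, Real.mul_rpow (EE_nonneg π q y k) (Real.rpow_nonneg hQpos.le _),
        ← Real.rpow_mul hQpos.le]
      congr 1
      rw [← Real.rpow_neg_one]
      congr 1
      field_simp
    simp_rw [e1]
    rw [← Finset.sum_mul, ← hQ, mul_inv_cancel₀ hQpos.ne']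

end Pool.Agent.Helper960.Clark
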