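import Pool.Agent.Helper960.Clark.Interp2

set_option autoImplicit false
set_option linter.unusedSectionVars false

open Complex Finset
open scoped InnerProductSpace

namespace Pool.Agent.Helper960.Clark

variable {H : Type*} [NormedAddCommGroup H] [InnerProductSpace ℂ H]

lemma exists_frame {γ : Type*} [Finite γ] (v : γ → H) :
    ∃ (r : ℕ) (e : Fin r → H), ∀ g x, ⟪x, v g⟫_ℂ = ∑ i, ⟪e i, v g⟫_ℂ * ⟪x, e i⟫_ℂ := by
  classical
  let S : Submodule ℂ H := Submodule.span ℂ (Set.range v)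
  haveI : FiniteDimensional ℂ S := FiniteDimensional.span_of_finite ℂ (Set.finite_range v)
  let B := stdOrthonormalBasis ℂ S
  refine ⟨_, fun i => (B i : H), fun g x => ?_⟩
  have hg : v g ∈ S := Submodule.subset_span ⟨g, rfl⟩
  have h1 := B.sum_repr ⟨v g, hg⟩
  have h2 : v g = ∑ i, ⟪(B i : H), v g⟫_ℂ • (B i : H) := by
    have h3 := congrArg (fun z : S => (z : H)) h1
    simp only [Submodule.coe_sum, Submodule.coe_smul] at h3
    rw [← h3]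
    refine Finset.sum_congr rfl fun i _ => ?_
    rw [h3, B.repr_apply_apply]
    rfl
  conv_lhs => rw [h2]
  rw [inner_sum]
  refine Finset.sum_congr rfl fun i _ => ?_
  rw [inner_smul_right]

noncomputable def ww {r : ℕ} (e : Fin r → H) (a b : H) : EuclideanSpace ℂ (Fin r × Fin r) :=
  WithLp.toLp 2 (fun s => ⟪e s.1, a⟫_ℂ * ⟪b, e s.2⟫_ℂ)

lemma ww_inner {r : ℕ} (e : Fin r → H) (a b c d : H)
    (hc : ∀ x, ⟪x, c⟫_ℂ = ∑ i, ⟪e i, c⟫_ℂ * ⟪x, e i⟫_ℂ)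
    (hb : ∀ x, ⟪x, b⟫_ℂ = ∑ i, ⟪e i, b⟫_ℂ * ⟪x, e i⟫_ℂ) :
    ⟪ww e a b, ww e c d⟫_ℂ = ⟪a, c⟫_ℂ * ⟪d, b⟫_ℂ := by
  rw [hc a, hb d, Finset.sum_mul_sum, PiLp.inner_apply, ← Finset.univ_product_univ,
    Finset.sum_product]
  refine Finset.sum_congr rfl fun s _ => Finset.sum_congr rfl fun t _ => ?_
  simp only [ww, RCLike.inner_apply, map_mul, inner_conj_symm]
  ring

section

variable {α β K J : Type*} [Fintype α] [Fintype β] [Fintype K] [DecidableEq K] [Fintype J]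
  [DecidableEq J]

/-- orthonormal along the fibres of `π` -/
def FibON (π : α → J) (a : α → H) : Prop := ∀ j, Orthonormal ℂ (fun x : {x // π x = j} => a x.1)

lemma FibON.norm {π : α → J} {a : α → H} (h : FibON π a) (x : α) : ‖a x‖ = 1 :=
  (h (π x)).1 ⟨x, rfl⟩

lemma FibON.bessel {π : α → J} {a : α → H} (h : FibON π a) (j : J) (v : H) :
    ∑ x ∈ univ.filter (fun x => π x = j), ‖⟪a x, v⟫_ℂ‖ ^ 2 ≤ ‖v‖ ^ 2 := by
  have h1 := (h j).sum_inner_products_le (s := univ) v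
  rw [← Finset.sum_subtype (univ.filter (fun x => π x = j)) (p := fun x => π x = j) (by simp)
    (fun x => ‖⟪a x, v⟫_ℂ‖ ^ 2)] at h1
  exact h1

/-- the kernel -/
noncomputable def MM (t : K → J → ℝ) (j : α → J) (π : β → K) (a b : α → H) (c d : β → H)
    (x : α) (y : β) : ℂ := (t (π y) (j x) : ℂ) * (⟪a x, c y⟫_ℂ * ⟪d y, b x⟫_ℂ)

lemma bound_one (t : K → J → ℝ) (j : α → J) (π : β → K) (a b : α → H) (c d : β → H)
    (ha : FibON j a) (hb : FibON j b) (hc : FibON π c) (hd : FibON π d)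
    (ht : ∀ k i, |t k i| ≤ 1) (x : α → ℂ) (y : β → ℂ) (m : K → ℝ) (hx : (∑ a, ‖x a‖) ≤ 1)
    (hy : ∀ b, ‖y b‖ ≤ m (π b)) (hm0 : ∀ k, 0 ≤ m k) (hm : (∑ k, m k) ≤ 1) :
    ‖∑ u, ∑ v, MM t j π a b c d u v * x u * y v‖ ≤ 1 := by
  have key : ∀ u, ‖∑ v, MM t j π a b c d u v * x u * y v‖ ≤ ‖x u‖ := by
    intro u
    have h1 : ‖∑ v, MM t j π a b c d u v * x u * y v‖ ≤
        ∑ v, ‖x u‖ * (m (π v) * ((‖⟪c v, a u⟫_ℂ‖ ^ 2 + ‖⟪d v, b u⟫_ℂ‖ ^ 2) / 2)) := by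
      refine (norm_sum_le _ _).trans (Finset.sum_le_sum fun v _ => ?_)
      rw [norm_mul, norm_mul]
      have h2 : ‖MM t j π a b c d u v‖ ≤ (‖⟪c v, a u⟫_ℂ‖ ^ 2 + ‖⟪d v, b u⟫_ℂ‖ ^ 2) / 2 := by
        unfold MM
        rw [norm_mul, norm_mul, Complex.norm_real, Real.norm_eq_abs]
        have h3 : ‖⟪a u, c v⟫_ℂ‖ = ‖⟪c v, a u⟫_ℂ‖ := norm_inner_symm _ _
        rw [h3]
        have h4 := ht (π v) (j u)
        have h5 : ‖⟪c v, a u⟫_ℂ‖ * ‖⟪d v, b u⟫_ℂ‖ ≤ (‖⟪c v, a u⟫_ℂ‖ ^ 2 + ‖⟪d v, b u⟫_ℂ‖ ^ 2) / 2 := by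
          nlinarith [sq_nonneg (‖⟪c v, a u⟫_ℂ‖ - ‖⟪d v, b u⟫_ℂ‖)]
        calc _ ≤ 1 * (‖⟪c v, a u⟫_ℂ‖ * ‖⟪d v, b u⟫_ℂ‖) := by gcongr
          _ ≤ _ := by rw [one_mul]; exact h5
      calc ‖MM t j π a b c d u v‖ * ‖x u‖ * ‖y v‖
          ≤ ((‖⟪c v, a u⟫_ℂ‖ ^ 2 + ‖⟪d v, b u⟫_ℂ‖ ^ 2) / 2) * ‖x u‖ * m (π v) := by
            gcongr
            exact hy v
        _ = _ := by ring
    refine h1.trans ?_
    rw [← Finset.mul_sum]
    have h6 : ∑ v, (m (π v) * ((‖⟪c v, a u⟫_ℂ‖ ^ 2 + ‖⟪d v, b u⟫_ℂ‖ ^ 2) / 2)) ≤ 1 := by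
      rw [← Finset.sum_fiberwise_of_maps_to (s := univ) (t := (univ : Finset K)) (g := π)
        (fun b _ => mem_univ _)]
      refine le_trans (Finset.sum_le_sum fun k _ => ?_) hm
      have e2 : ∑ v ∈ univ.filter (fun v => π v = k),
          (m (π v) * ((‖⟪c v, a u⟫_ℂ‖ ^ 2 + ‖⟪d v, b u⟫_ℂ‖ ^ 2) / 2))
          = m k * ((∑ v ∈ univ.filter (fun v => π v = k), ‖⟪c v, a u⟫_ℂ‖ ^ 2 +
            ∑ v ∈ univ.filter (fun v => π v = k), ‖⟪d v, b u⟫_ℂ‖ ^ 2) / 2) := by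
        rw [← Finset.sum_add_distrib, Finset.sum_div, Finset.mul_sum]
        refine Finset.sum_congr rfl fun v hv => ?_
        rw [(Finset.mem_filter.1 hv).2]
      rw [e2]
      have h7 := hc.bessel k (a u)
      have h8 := hd.bessel k (b u)
      rw [ha.norm u] at h7
      rw [hb.norm u] at h8
      have h9 : (∑ v ∈ univ.filter (fun v => π v = k), ‖⟪c v, a u⟫_ℂ‖ ^ 2 +
            ∑ v ∈ univ.filter (fun v => π v = k), ‖⟪d v, b u⟫_ℂ‖ ^ 2) / 2 ≤ 1 := by linarith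
      calc m k * _ ≤ m k * 1 := by gcongr; exact hm0 k
        _ = m k := mul_one _
    calc ‖x u‖ * _ ≤ ‖x u‖ * 1 := by gcongr
      _ = ‖x u‖ := mul_one _
  exact ((norm_sum_le _ _).trans (Finset.sum_le_sum fun u _ => key u)).trans hx

lemma norm_sq_fib {W : Type*} [NormedAddCommGroup W] [InnerProductSpace ℂ W] (j : α → J) (w : α → W)
    (hw : FibON j w) (x : α → ℂ) (i : J) :
    ‖∑ u ∈ univ.filter (fun u => j u = i), x u • w u‖ ^ 2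
      = ∑ u ∈ univ.filter (fun u => j u = i), ‖x u‖ ^ 2 := by
  rw [Finset.sum_subtype (univ.filter (fun u => j u = i)) (p := fun u => j u = i) (by simp)
    (fun u => x u • w u), Finset.sum_subtype (univ.filter (fun u => j u = i))
    (p := fun u => j u = i) (by simp) (fun u => ‖x u‖ ^ 2)]
  have h := (hw i).inner_sum (fun u => x u.1) (fun u => x u.1) univ
  have h2 := inner_self_eq_norm_sq_to_K (𝕜 := ℂ) (∑ u : {u // j u = i}, x u.1 • w u.1)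
  rw [h] at h2
  have h3 : ((∑ u : {u // j u = i}, ‖x u.1‖ ^ 2 : ℝ) : ℂ)
      = ((‖∑ u : {u // j u = i}, x u.1 • w u.1‖ ^ 2 : ℝ) : ℂ) := by
    push_cast
    refine Eq.trans (Finset.sum_congr rfl fun u _ => ?_) h2
    rw [← Complex.conj_mul']
  exact_mod_cast h3.symm

lemma fib_ww {r : ℕ} (e : Fin r → H) (j : α → J) (a b : α → H) (ha : FibON j a) (hb : FibON j b)
    (hea : ∀ u x, ⟪x, a u⟫_ℂ = ∑ i, ⟪e i, a u⟫_ℂ * ⟪x, e i⟫_ℂ)
    (heb : ∀ u x, ⟪x, b u⟫_ℂ = ∑ i, ⟪e i, b u⟫_ℂ * ⟪x, e i⟫_ℂ) :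
    FibON j (fun u => ww e (a u) (b u)) := by
  classical
  intro i
  rw [orthonormal_iff_ite]
  intro u v
  rw [ww_inner e _ _ _ _ (hea v.1) (heb u.1)]
  have h1 := (orthonormal_iff_ite.1 (ha i)) u v
  have h2 := (orthonormal_iff_ite.1 (hb i)) v u
  rw [h1, h2]
  by_cases huv : u = v
  · simp [huv]
  · simp [huv]

lemma bound_two (t : K → J → ℝ) (j : α → J) (π : β → K) (a b : α → H) (c d : β → H)
    (ha : FibON j a) (hb : FibON j b) (hc : FibON π c) (hd : FibON π d) {N : ℝ} (hN : 0 ≤ N)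
    (ht : ∀ (r : ℕ) (X : J → EuclideanSpace ℂ (Fin r × Fin r)),
      ∑ k, ‖∑ i, (t k i : ℂ) • X i‖ ^ 2 ≤ N * ∑ i, ‖X i‖ ^ 2)
    (x : α → ℂ) (y : β → ℂ) (hx : (∑ a, ‖x a‖ ^ 2) ≤ 1) (hy : (∑ b, ‖y b‖ ^ 2) ≤ 1) :
    ‖∑ u, ∑ v, MM t j π a b c d u v * x u * y v‖ ≤ Real.sqrt N := by
  classical
  obtain ⟨r, e, he⟩ := exists_frame (γ := (α ⊕ α) ⊕ (β ⊕ β))
    (Sum.elim (Sum.elim a b) (Sum.elim c d))
  have hea : ∀ u x, ⟪x, a u⟫_ℂ = ∑ i, ⟪e i, a u⟫_ℂ * ⟪x, e i⟫_ℂ := fun u x => he (Sum.inl (Sum.inl u)) x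
  have heb : ∀ u x, ⟪x, b u⟫_ℂ = ∑ i, ⟪e i, b u⟫_ℂ * ⟪x, e i⟫_ℂ := fun u x => he (Sum.inl (Sum.inr u)) x
  have hec : ∀ u x, ⟪x, c u⟫_ℂ = ∑ i, ⟪e i, c u⟫_ℂ * ⟪x, e i⟫_ℂ := fun u x => he (Sum.inr (Sum.inl u)) x
  have hed : ∀ u x, ⟪x, d u⟫_ℂ = ∑ i, ⟪e i, d u⟫_ℂ * ⟪x, e i⟫_ℂ := fun u x => he (Sum.inr (Sum.inr u)) x
  have hw1 := fib_ww e j a b ha hb hea heb
  have hw2 := fib_ww e π c d hc hd hec hed
  set X : J → EuclideanSpace ℂ (Fin r × Fin r) := fun i =>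
    ∑ u ∈ univ.filter (fun u => j u = i), (starRingEnd ℂ) (x u) • ww e (a u) (b u) with hX
  set Y : K → EuclideanSpace ℂ (Fin r × Fin r) := fun k =>
    ∑ v ∈ univ.filter (fun v => π v = k), y v • ww e (c v) (d v) with hY
  have hXn : ∀ i, ‖X i‖ ^ 2 = ∑ u ∈ univ.filter (fun u => j u = i), ‖x u‖ ^ 2 := by
    intro i
    rw [hX]
    simp only
    rw [norm_sq_fib j _ hw1 (fun u => (starRingEnd ℂ) (x u)) i]
    refine Finset.sum_congr rfl fun u _ => ?_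
    rw [RCLike.norm_conj]
  have hYn : ∀ k, ‖Y k‖ ^ 2 = ∑ v ∈ univ.filter (fun v => π v = k), ‖y v‖ ^ 2 := by
    intro k
    exact norm_sq_fib π _ hw2 y k
  have hsX : ∑ i, ‖X i‖ ^ 2 ≤ 1 := by
    simp_rw [hXn]
    rw [Finset.sum_fiberwise_of_maps_to (s := univ) (t := (univ : Finset J)) (g := j)
      (fun b _ => mem_univ _)]
    exact hx
  have hsY : ∑ k, ‖Y k‖ ^ 2 ≤ 1 := by
    simp_rw [hYn]
    rw [Finset.sum_fiberwise_of_maps_to (s := univ) (t := (univ : Finset K)) (g := π)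
      (fun b _ => mem_univ _)]
    exact hy
  set Z : K → EuclideanSpace ℂ (Fin r × Fin r) := fun k => ∑ i, (t k i : ℂ) • X i with hZ
  have hZ2 : ∀ k, Z k = ∑ u, (t k (j u) : ℂ) • ((starRingEnd ℂ) (x u) • ww e (a u) (b u)) := by
    intro k
    rw [hZ]
    simp only
    rw [← Finset.sum_fiberwise_of_maps_to (s := univ) (t := (univ : Finset J)) (g := j)
      (fun b _ => mem_univ _) (f := fun u => (t k (j u) : ℂ) • ((starRingEnd ℂ) (x u) • ww e (a u) (b u)))]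
    refine Finset.sum_congr rfl fun i _ => ?_
    rw [hX]
    simp only
    rw [Finset.smul_sum]
    refine Finset.sum_congr rfl fun u hu => ?_
    rw [(Finset.mem_filter.1 hu).2]
  have hsum : ∑ u, ∑ v, MM t j π a b c d u v * x u * y v = ∑ k, ⟪Z k, Y k⟫_ℂ := by
    rw [Finset.sum_comm]
    rw [← Finset.sum_fiberwise_of_maps_to (s := univ) (t := (univ : Finset K)) (g := π)
      (fun b _ => mem_univ _)]
    refine Finset.sum_congr rfl fun k _ => ?_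
    rw [hY]
    simp only
    rw [inner_sum]
    refine Finset.sum_congr rfl fun v hv => ?_
    rw [hZ2 k, sum_inner]
    refine Finset.sum_congr rfl fun u _ => ?_
    rw [inner_smul_left, inner_smul_left, inner_smul_right, ww_inner e _ _ _ _ (hec v) (heb u)]
    have h1 : π v = k := (Finset.mem_filter.1 hv).2
    unfold MM
    rw [h1]
    simp only [Complex.conj_conj, Complex.conj_ofReal]
    ring
  rw [hsum]
  have h1 : ‖∑ k, ⟪Z k, Y k⟫_ℂ‖ ≤ ∑ k, ‖Z k‖ * ‖Y k‖ :=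
    (norm_sum_le _ _).trans (Finset.sum_le_sum fun k _ => norm_inner_le_norm _ _)
  have h2 := Finset.sum_mul_sq_le_sq_mul_sq univ (fun k => ‖Z k‖) (fun k => ‖Y k‖)
  have h3 : ∑ k, ‖Z k‖ ^ 2 ≤ N := by
    have := ht r X
    calc _ ≤ N * ∑ i, ‖X i‖ ^ 2 := this
      _ ≤ N * 1 := by gcongr
      _ = N := mul_one _
  refine h1.trans (Real.le_sqrt_of_sq_le (h2.trans ?_))
  calc (∑ k, ‖Z k‖ ^ 2) * ∑ k, ‖Y k‖ ^ 2 ≤ N * 1 := by
        gcongr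
    _ = N := mul_one _

/-- the finite bilinear inequality -/
theorem bilinear (t : K → J → ℝ) (j : α → J) (π : β → K) (a b : α → H) (c d : β → H)
    (ha : FibON j a) (hb : FibON j b) (hc : FibON π c) (hd : FibON π d) {N : ℝ} (hN : 0 ≤ N)
    (ht1 : ∀ k i, |t k i| ≤ 1)
    (ht : ∀ (r : ℕ) (X : J → EuclideanSpace ℂ (Fin r × Fin r)),
      ∑ k, ‖∑ i, (t k i : ℂ) • X i‖ ^ 2 ≤ N * ∑ i, ‖X i‖ ^ 2)
    {p q : ℝ} (hp1 : 1 < p) (hp2 : p ≤ 2) (hpq : 1 / p + 1 / q = 1)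
    (x : α → ℂ) (y : β → ℂ) :
    ‖∑ u, ∑ v, MM t j π a b c d u v * x u * y v‖ ≤
      N ^ (1 / q) * (∑ a, ‖x a‖ ^ p) ^ (1 / p) * (∑ k, EE π q y k ^ (p / q)) ^ (1 / p) := by
  have h := interp π (MM t j π a b c d) (Real.sqrt_nonneg N) hp1 hp2 hpq
    (fun x y hx hy => bound_two t j π a b c d ha hb hc hd hN ht x y hx hy)
    (fun x y m hx hy hm0 hm => bound_one t j π a b c d ha hb hc hd ht1 x y m hx hy hm0 hm) x y
  have e : Real.sqrt N ^ (2 / q) = N ^ (1 / q) := by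
    rw [Real.sqrt_eq_rpow, ← Real.rpow_mul hN]
    congr 1
    ring
  rwa [e] at h

end

end Pool.Agent.Helper960.Clark
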