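import Pool.Agent.Helper960.Clark.SVD

set_option autoImplicit false
set_option linter.unusedSectionVars false

open scoped InnerProductSpace ENNReal Topology
open Finset Filter

namespace Pool.Agent.Helper960.Clark

open Pool.Agent.Helper526.Sch

universe u v

/-- index set: the full sum (`none`) and the differences `j < k` -/
abbrev KK (n : ℕ) : Type := Option {e : Fin n × Fin n // e.1 < e.2}

def tt (n : ℕ) : KK n → Fin n → ℝ
  | none, _ => 1
  | some e, i => (if i = e.1.1 then 1 else 0) - (if i = e.1.2 then 1 else 0)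

lemma tt_le (n : ℕ) (k : KK n) (i : Fin n) : |tt n k i| ≤ 1 := by
  cases k with
  | none => simp [tt]
  | some e =>
    simp only [tt]
    split_ifs <;> norm_num

lemma sum_lt {n : ℕ} (g : Fin n → Fin n → ℝ) (hs : ∀ a b, g a b = g b a) (h0 : ∀ a, g a a = 0) :
    2 * ∑ e : {e : Fin n × Fin n // e.1 < e.2}, g e.1.1 e.1.2 = ∑ a, ∑ b, g a b := by
  have h1 : ∑ e : {e : Fin n × Fin n // e.1 < e.2}, g e.1.1 e.1.2
      = ∑ a, ∑ b, if a < b then g a b else 0 := by
    rw [← Finset.sum_product', Finset.univ_product_univ, ← Finset.sum_filter]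
    exact (Finset.sum_subtype (univ.filter (fun e : Fin n × Fin n => e.1 < e.2))
      (p := fun e => e.1 < e.2) (by simp) (fun e => g e.1 e.2)).symm
  have h2 : ∑ a, ∑ b, (if a < b then g a b else 0) = ∑ a, ∑ b, (if b < a then g a b else 0) := by
    rw [Finset.sum_comm]
    refine Finset.sum_congr rfl fun a _ => Finset.sum_congr rfl fun b _ => ?_
    rw [hs b a]
  have h3 : ∑ a, ∑ b, g a b
      = ∑ a, ∑ b, (if a < b then g a b else 0) + ∑ a, ∑ b, (if b < a then g a b else 0) := by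
    rw [← Finset.sum_add_distrib]
    refine Finset.sum_congr rfl fun a _ => ?_
    rw [← Finset.sum_add_distrib]
    refine Finset.sum_congr rfl fun b _ => ?_
    rcases lt_trichotomy a b with h | h | h
    · simp [h, h.not_gt]
    · subst h; simp [h0]
    · simp [h, h.not_gt]
  rw [h1, h3, ← h2]
  ring

lemma sum_diff {n : ℕ} (u w : Fin n → ℝ) :
    ∑ a, ∑ b, (u a - u b) * (w a - w b) = 2 * n * (∑ a, u a * w a) - 2 * ((∑ a, u a) * ∑ a, w a) := by
  have h : ∀ a b, (u a - u b) * (w a - w b) = u a * w a - u a * w b - u b * w a + u b * w b := by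
    intro a b; ring
  simp_rw [h]
  simp only [Finset.sum_add_distrib, Finset.sum_sub_distrib, Finset.sum_const, Finset.card_univ,
    Fintype.card_fin, nsmul_eq_mul, ← Finset.mul_sum, ← Finset.sum_mul]
  ring

lemma tt_gram (n : ℕ) (i j : Fin n) :
    ∑ k, tt n k i * tt n k j = if i = j then (n : ℝ) else 0 := by
  rw [Fintype.sum_option]
  simp only [tt]
  have h1 := sum_lt (fun a b : Fin n => (((if i = a then 1 else 0) - (if i = b then 1 else 0)) : ℝ) *
    ((if j = a then 1 else 0) - (if j = b then 1 else 0))) (by intro a b; ring) (by intro a; ring)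
  have h2 := sum_diff (fun a : Fin n => ((if i = a then 1 else 0) : ℝ)) (fun a => if j = a then 1 else 0)
  rw [h2] at h1
  have h3 : ∑ a, ((if i = a then 1 else 0) : ℝ) * (if j = a then 1 else 0) = if i = j then 1 else 0 := by
    rw [Finset.sum_eq_single i]
    · by_cases h : i = j
      · simp [h]
      · simp [h, Ne.symm h]
    · intro b _ hb
      simp [Ne.symm hb]
    · simp
  rw [h3] at h1
  simp only [Finset.sum_ite_eq, Finset.mem_univ, if_true, mul_one] at h1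
  by_cases h : i = j
  · simp only [h, if_true] at h1 ⊢
    linarith
  · simp only [h, if_false] at h1 ⊢
    linarith

lemma tt_norm (n : ℕ) {W : Type*} [NormedAddCommGroup W] [InnerProductSpace ℂ W] (X : Fin n → W) :
    ∑ k, ‖∑ i, (tt n k i : ℂ) • X i‖ ^ 2 = n * ∑ i, ‖X i‖ ^ 2 := by
  have h1 : ((∑ k, ‖∑ i, (tt n k i : ℂ) • X i‖ ^ 2 : ℝ) : ℂ) = ((n * ∑ i, ‖X i‖ ^ 2 : ℝ) : ℂ) := by
    push_cast
    have e1 : ∀ k, ((‖∑ i, (tt n k i : ℂ) • X i‖ : ℂ)) ^ 2
        = ∑ i, ∑ j, ((tt n k i * tt n k j : ℝ) : ℂ) * ⟪X i, X j⟫_ℂ := by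
      intro k
      have := inner_self_eq_norm_sq_to_K (𝕜 := ℂ) (∑ i, (tt n k i : ℂ) • X i)
      have h2 : ((‖∑ i, (tt n k i : ℂ) • X i‖ : ℂ)) ^ 2
        = ⟪∑ i, (tt n k i : ℂ) • X i, ∑ i, (tt n k i : ℂ) • X i⟫_ℂ := this.symm
      rw [h2, sum_inner]
      refine Finset.sum_congr rfl fun i _ => ?_
      rw [inner_sum]
      refine Finset.sum_congr rfl fun j _ => ?_
      rw [inner_smul_left, inner_smul_right, Complex.conj_ofReal]
      push_cast
      ring
    simp_rw [e1]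
    rw [Finset.sum_comm, Finset.mul_sum]
    refine Finset.sum_congr rfl fun i _ => ?_
    rw [Finset.sum_comm]
    have e2 : ∀ j, ∑ k, ((tt n k i * tt n k j : ℝ) : ℂ) * ⟪X i, X j⟫_ℂ
        = if i = j then (n : ℂ) * ⟪X i, X j⟫_ℂ else 0 := by
      intro j
      rw [← Finset.sum_mul, ← Complex.ofReal_sum, tt_gram]
      by_cases h : i = j
      · simp [h]
      · simp [h]
    simp_rw [e2]
    rw [Finset.sum_ite_eq]
    simp only [Finset.mem_univ, if_true]
    rw [inner_self_eq_norm_sq_to_K]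
    rfl
  exact_mod_cast h1

/-! arithmetic -/

lemma arith1 {n p q Z R : ℝ} (hn : 0 ≤ n) (hZ : 0 ≤ Z) (hR : 0 ≤ R) (hp : 0 < p) (hq : 0 < q)
    (hpq : 1 / p + 1 / q = 1) (h : n * Z ≤ n ^ (1 / p) * Z ^ (1 / q) * R ^ (1 / q)) :
    n * Z ^ (q / p) ≤ R := by
  rcases hn.eq_or_lt with h0 | hn'
  · rw [← h0, zero_mul]; exact hR
  rcases hZ.eq_or_lt with h0 | hZ'
  · rw [← h0, Real.zero_rpow (by positivity), mul_zero]; exact hR
  have e1 : n = n ^ (1 / p) * n ^ (1 / q) := by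
    rw [← Real.rpow_add hn', hpq, Real.rpow_one]
  have e2 : Z = Z ^ (1 / q) * Z ^ (1 / p) := by
    rw [← Real.rpow_add hZ', add_comm, hpq, Real.rpow_one]
  have h2 : (n ^ (1 / p) * Z ^ (1 / q)) * (n ^ (1 / q) * Z ^ (1 / p)) ≤
      (n ^ (1 / p) * Z ^ (1 / q)) * R ^ (1 / q) := by
    calc (n ^ (1 / p) * Z ^ (1 / q)) * (n ^ (1 / q) * Z ^ (1 / p))
        = (n ^ (1 / p) * n ^ (1 / q)) * (Z ^ (1 / q) * Z ^ (1 / p)) := by ring
      _ = n * Z := by rw [← e1, ← e2]
      _ ≤ _ := h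
  have h3 : n ^ (1 / q) * Z ^ (1 / p) ≤ R ^ (1 / q) := le_of_mul_le_mul_left h2 (by positivity)
  have h4 := Real.rpow_le_rpow (by positivity) h3 hq.le
  rw [Real.mul_rpow (by positivity) (by positivity), ← Real.rpow_mul hn, ← Real.rpow_mul hZ,
    ← Real.rpow_mul hR, one_div_mul_cancel hq.ne', Real.rpow_one, Real.rpow_one] at h4
  have e3 : 1 / p * q = q / p := by ring
  rwa [e3] at h4

lemma arith2 {n p q W S : ℝ} (hn : 0 ≤ n) (hW : 0 ≤ W) (hS : 0 ≤ S) (hp : 0 < p) (hq : 0 < q)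
    (hpq : 1 / p + 1 / q = 1) (h : W ≤ n ^ (1 / q) * S ^ (1 / p) * W ^ (1 / p)) :
    W ≤ n * S ^ (q / p) := by
  rcases hW.eq_or_lt with h0 | hW'
  · rw [← h0]; positivity
  have e2 : W = W ^ (1 / q) * W ^ (1 / p) := by
    rw [← Real.rpow_add hW', add_comm, hpq, Real.rpow_one]
  have h3 : W ^ (1 / q) ≤ n ^ (1 / q) * S ^ (1 / p) := by
    refine le_of_mul_le_mul_right ?_ (Real.rpow_pos_of_pos hW' (1 / p))
    rw [← e2]
    exact h
  have h4 := Real.rpow_le_rpow (by positivity) h3 hq.le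
  rw [Real.mul_rpow (by positivity) (by positivity), ← Real.rpow_mul hn, ← Real.rpow_mul hS,
    ← Real.rpow_mul hW, one_div_mul_cancel hq.ne', Real.rpow_one, Real.rpow_one] at h4
  have e3 : 1 / p * q = q / p := by ring
  rwa [e3] at h4

section

variable {ι : Type v} {H : Type u} [NormedAddCommGroup H] [InnerProductSpace ℂ H] [CompleteSpace H]

lemma hasSum_T (b : HilbertBasis ι ℂ H) {p : ℝ} {X : H →L[ℂ] H} (hX : IsSchatten b p X)
    {κ : Type u} {s : κ → ℝ} (hs : ∀ i, 0 < s i)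
    (h : trAbsPow b p X = ∑' i, ENNReal.ofReal (s i ^ p)) :
    HasSum (fun i => s i ^ p) (trAbsPow b p X).toReal := by
  have h1 : ∑' i, ENNReal.ofReal (s i ^ p) ≠ ∞ := by rw [← h]; exact hX.2.ne
  have h2 := ENNReal.hasSum_toReal h1
  rw [h, ENNReal.tsum_toReal_eq (fun i => ENNReal.ofReal_ne_top)]
  convert h2 using 1
  funext i
  rw [ENNReal.toReal_ofReal (Real.rpow_nonneg (hs i).le _)]

/-- the operators `∑ A_i` and `A_j - A_k` -/
noncomputable def BB {n : ℕ} (A : Fin n → (H →L[ℂ] H)) (k : KK n) : H →L[ℂ] H :=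
  ∑ i, (tt n k i : ℂ) • A i

lemma BB_schatten (b : HilbertBasis ι ℂ H) {p : ℝ} (hp : 0 < p) {n : ℕ} (A : Fin n → (H →L[ℂ] H))
    (hA : ∀ i, IsSchatten b p (A i)) (k : KK n) : IsSchatten b p (BB A k) := by
  have : BB A k ∈ schattenSubmodule b p hp :=
    Submodule.sum_mem _ fun i _ => Submodule.smul_mem _ _ (show A i ∈ schattenSubmodule b p hp from hA i)
  exact this

lemma BB_inv {n : ℕ} (A : Fin n → (H →L[ℂ] H)) (i : Fin n) (x y : H) :
    ∑ k, (tt n k i : ℂ) * ⟪y, BB A k x⟫_ℂ = n * ⟪y, A i x⟫_ℂ := by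
  have e1 : ∀ k, (tt n k i : ℂ) * ⟪y, BB A k x⟫_ℂ
      = ∑ j, ((tt n k i * tt n k j : ℝ) : ℂ) * ⟪y, A j x⟫_ℂ := by
    intro k
    unfold BB
    rw [ContinuousLinearMap.sum_apply, inner_sum, Finset.mul_sum]
    refine Finset.sum_congr rfl fun j _ => ?_
    rw [ContinuousLinearMap.smul_apply, inner_smul_right]
    push_cast
    ring
  simp_rw [e1]
  rw [Finset.sum_comm]
  have e2 : ∀ j, ∑ k, ((tt n k i * tt n k j : ℝ) : ℂ) * ⟪y, A j x⟫_ℂ
      = if i = j then (n : ℂ) * ⟪y, A j x⟫_ℂ else 0 := by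
    intro j
    rw [← Finset.sum_mul, ← Complex.ofReal_sum, tt_gram]
    by_cases h : i = j
    · simp [h]
    · simp [h]
  simp_rw [e2]
  rw [Finset.sum_ite_eq]
  simp

end

end Pool.Agent.Helper960.Clark
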