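import Pool.Agent.Helper960.Clark.Main

set_option autoImplicit false
set_option linter.unusedSectionVars false

open scoped InnerProductSpace ENNReal Topology
open Finset Filter

namespace Pool.Agent.Helper960.Clark

open Pool.Agent.Helper526.Sch

universe u v

variable {ι : Type v} {H : Type u} [NormedAddCommGroup H] [InnerProductSpace ℂ H] [CompleteSpace H]

lemma sum_sigma_coe {J : Type*} [Fintype J] {S : J → Type*} (F : ∀ i, Finset (S i)) {M : Type*}
    [AddCommMonoid M] (g : ∀ i, S i → M) :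
    ∑ u : (Σ i, {x // x ∈ F i}), g u.1 u.2.1 = ∑ i, ∑ x ∈ F i, g i x := by
  rw [Fintype.sum_sigma]
  refine Finset.sum_congr rfl fun i _ => ?_
  exact Finset.sum_coe_sort (F i) (g i)

lemma norm_ofReal_rpow {s : ℝ} (hs : 0 ≤ s) (r : ℝ) : ‖((s : ℝ) : ℂ)‖ ^ r = s ^ r := by
  rw [Complex.norm_real, Real.norm_of_nonneg hs]

lemma q_facts {p q : ℝ} (hp : 1 < p) (hpq : 1 / p + 1 / q = 1) : 0 < q ∧ (p - 1) * q = p ∧ q / p = q - 1 := by
  have hp0 : 0 < p := by linarith
  have hq0 : 0 < q := by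
    have : 0 < 1 / q := by
      have : 1 / p < 1 := by rw [div_lt_one hp0]; exact hp
      linarith
    exact one_div_pos.1 this
  have h1 : p + q = p * q := by
    field_simp at hpq
    linarith
  refine ⟨hq0, by linarith, ?_⟩
  rw [div_eq_iff hp0.ne']
  linarith

theorem q1 (b : HilbertBasis ι ℂ H) {n : ℕ} {p q : ℝ} (hp : 2 ≤ p) (hpq : 1 / p + 1 / q = 1)
    (A : Fin n → (H →L[ℂ] H)) (hA : ∀ i, IsSchatten b p (A i)) :
    n * (∑ i, (trAbsPow b p (A i)).toReal) ^ (q / p) ≤
      ∑ k, (trAbsPow b p (BB A k)).toReal ^ (q / p) := by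
  classical
  have hp0 : 0 < p := by linarith
  obtain ⟨hq0, hpq1, hqp⟩ := q_facts (by linarith : 1 < p) hpq
  have hq1 : 1 < q := by
    have : 0 < q / p := by positivity
    linarith
  have hq2 : q ≤ 2 := by
    have : (p - 1) * q = p := hpq1
    nlinarith
  have hpq' : 1 / q + 1 / p = 1 := by rw [add_comm]; exact hpq
  have hB := BB_schatten b hp0 A hA
  choose κA eA fA sA hAe hAf hAs hAX hAsum hAtr using fun i => exists_svd b (hA i).1
  choose κB eB fB sB hBe hBf hBs hBX hBsum hBtr using fun k => exists_svd b (hB k).1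
  have hTA := fun i => hasSum_T b (hA i) (hAs i) (hAtr i p hp0)
  have hTB := fun k => hasSum_T b (hB k) (hBs k) (hBtr k p hp0)
  set R := ∑ k, (trAbsPow b p (BB A k)).toReal ^ (q / p) with hR
  have hR0 : 0 ≤ R := Finset.sum_nonneg fun k _ => by positivity
  -- finite version
  have key : ∀ F : (∀ i, Finset (κA i)), (n : ℝ) * (∑ i, ∑ x ∈ F i, sA i x ^ p) ^ (q / p) ≤ R := by
    intro F
    set Z := ∑ i, ∑ x ∈ F i, sA i x ^ p with hZ
    have hZ0 : 0 ≤ Z := Finset.sum_nonneg fun i _ => Finset.sum_nonneg fun x _ =>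
      Real.rpow_nonneg (hAs i x).le _
    refine arith1 (Nat.cast_nonneg n) hZ0 hR0 hp0 hq0 hpq ?_
    let z : (Σ i, {x // x ∈ F i}) → ℂ := fun w => ((sA w.1 w.2.1 ^ (p - 1) : ℝ) : ℂ)
    have hz : ∑ w, ‖z w‖ ^ q = Z := by
      have e : ∀ w : (Σ i, {x // x ∈ F i}), ‖z w‖ ^ q = sA w.1 w.2.1 ^ p := by
        intro w
        simp only [z]
        rw [norm_ofReal_rpow (Real.rpow_nonneg (hAs _ _).le _), ← Real.rpow_mul (hAs _ _).le, hpq1]
      simp_rw [e]
      exact sum_sigma_coe F (fun i x => sA i x ^ p)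
    let L : (∀ k, Finset (κB k)) → ℂ := fun G => ∑ w : (Σ i, {x // x ∈ F i}), ∑ k,
      z w * ((tt n k w.1 : ℂ) * ∑ l ∈ G k, (sB k l : ℂ) *
        (⟪fA w.1 w.2.1, fB k l⟫_ℂ * ⟪eB k l, eA w.1 w.2.1⟫_ℂ))
    have hLim : Tendsto L (Filter.pi fun k => atTop) (𝓝 ((n : ℂ) * (Z : ℂ))) := by
      have h1 : Tendsto L (Filter.pi fun k => atTop) (𝓝 (∑ w : (Σ i, {x // x ∈ F i}), ∑ k,
          z w * ((tt n k w.1 : ℂ) * ⟪fA w.1 w.2.1, BB A k (eA w.1 w.2.1)⟫_ℂ))) := by
        refine tendsto_finsetSum _ fun w _ => tendsto_finsetSum _ fun k _ => ?_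
        refine Tendsto.const_mul _ (Tendsto.const_mul _ ?_)
        exact (hBsum k (eA w.1 w.2.1) (fA w.1 w.2.1)).comp (tendsto_eval_pi _ k)
      have h2 : (∑ w : (Σ i, {x // x ∈ F i}), ∑ k,
          z w * ((tt n k w.1 : ℂ) * ⟪fA w.1 w.2.1, BB A k (eA w.1 w.2.1)⟫_ℂ)) = (n : ℂ) * (Z : ℂ) := by
        have e1 : ∀ w : (Σ i, {x // x ∈ F i}), ∑ k,
            z w * ((tt n k w.1 : ℂ) * ⟪fA w.1 w.2.1, BB A k (eA w.1 w.2.1)⟫_ℂ)
            = (n : ℂ) * ((sA w.1 w.2.1 ^ p : ℝ) : ℂ) := by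
          intro w
          rw [← Finset.mul_sum, BB_inv, hAX, inner_smul_right]
          have : ⟪fA w.1 w.2.1, fA w.1 w.2.1⟫_ℂ = 1 := by
            rw [inner_self_eq_norm_sq_to_K, (hAf w.1).1]
            simp
          rw [this]
          simp only [z]
          have e3 : sA w.1 w.2.1 ^ p = sA w.1 w.2.1 ^ (p - 1) * sA w.1 w.2.1 := by
            rw [← Real.rpow_add_one (hAs _ _).ne']
            congr 1
            ring
          rw [e3]
          push_cast
          ring
        simp_rw [e1]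
        rw [← Finset.mul_sum, ← Complex.ofReal_sum]
        congr 2
        exact sum_sigma_coe F (fun i x => sA i x ^ p)
      rwa [h2] at h1
    have hbd : ∀ G, ‖L G‖ ≤ (n : ℝ) ^ (1 / p) * Z ^ (1 / q) * R ^ (1 / q) := by
      intro G
      let y : (Σ k, {l // l ∈ G k}) → ℂ := fun w => ((sB w.1 w.2.1 : ℝ) : ℂ)
      have h := bilinear (tt n) (Sigma.fst : (Σ i, {x // x ∈ F i}) → Fin n)
        (Sigma.fst : (Σ k, {l // l ∈ G k}) → KK n)
        (fun w => fA w.1 w.2.1) (fun w => eA w.1 w.2.1) (fun w => fB w.1 w.2.1)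
        (fun w => eB w.1 w.2.1)
        (sigma_fibON (fun i (x : {x // x ∈ F i}) => fA i x.1)
          (fun i => (hAf i).comp _ Subtype.val_injective))
        (sigma_fibON (fun i (x : {x // x ∈ F i}) => eA i x.1)
          (fun i => (hAe i).comp _ Subtype.val_injective))
        (sigma_fibON (fun i (x : {x // x ∈ G i}) => fB i x.1)
          (fun i => (hBf i).comp _ Subtype.val_injective))
        (sigma_fibON (fun i (x : {x // x ∈ G i}) => eB i x.1)
          (fun i => (hBe i).comp _ Subtype.val_injective))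
        (N := (n : ℝ)) (Nat.cast_nonneg n) (tt_le n) (fun r X => (tt_norm n X).le) hq1 hq2 hpq' z y
      have hE : ∀ k, EE (Sigma.fst : (Σ k, {l // l ∈ G k}) → KK n) p y k
          ≤ (trAbsPow b p (BB A k)).toReal := by
        intro k
        rw [EE_sigma]
        have e1 : ∑ l : {l // l ∈ G k}, ‖y ⟨k, l⟩‖ ^ p = ∑ l ∈ G k, sB k l ^ p := by
          rw [← Finset.sum_coe_sort (G k) (fun l => sB k l ^ p)]
          refine Finset.sum_congr rfl fun l _ => ?_
          exact norm_ofReal_rpow (hBs _ _).le p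
        rw [e1]
        exact sum_le_hasSum _ (fun i _ => Real.rpow_nonneg (hBs k i).le _) (hTB k)
      have hE2 : ∑ k, EE (Sigma.fst : (Σ k, {l // l ∈ G k}) → KK n) p y k ^ (q / p) ≤ R := by
        refine Finset.sum_le_sum fun k _ => ?_
        exact Real.rpow_le_rpow (EE_nonneg _ _ _ _) (hE k) (by positivity)
      have hL : L G = ∑ u, ∑ v, MM (tt n) (Sigma.fst : (Σ i, {x // x ∈ F i}) → Fin n)
        (Sigma.fst : (Σ k, {l // l ∈ G k}) → KK n)
        (fun w => fA w.1 w.2.1) (fun w => eA w.1 w.2.1) (fun w => fB w.1 w.2.1)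
        (fun w => eB w.1 w.2.1) u v * z u * y v := by
        refine Finset.sum_congr rfl fun w _ => ?_
        refine Eq.trans ?_ (sum_sigma_coe G (fun k l => ((tt n k w.1 : ℂ) *
          (⟪fA w.1 w.2.1, fB k l⟫_ℂ * ⟪eB k l, eA w.1 w.2.1⟫_ℂ)) * z w * (sB k l : ℂ))).symm
        refine Finset.sum_congr rfl fun k _ => ?_
        rw [Finset.mul_sum, Finset.mul_sum]
        refine Finset.sum_congr rfl fun l _ => ?_
        ring
      rw [← hL, hz] at h
      refine h.trans ?_
      have h5 : (∑ k, EE (Sigma.fst : (Σ k, {l // l ∈ G k}) → KK n) p y k ^ (q / p)) ^ (1 / q)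
          ≤ R ^ (1 / q) := by
        refine Real.rpow_le_rpow ?_ hE2 (by positivity)
        exact Finset.sum_nonneg fun k _ => Real.rpow_nonneg (EE_nonneg _ _ _ _) _
      gcongr
    have h6 := le_of_tendsto hLim.norm (Filter.Eventually.of_forall hbd)
    have h7 : ‖((n : ℂ) * (Z : ℂ))‖ = n * Z := by
      rw [norm_mul, Complex.norm_real, Real.norm_of_nonneg hZ0]
      simp
    rwa [h7] at h6
  have hlim : Tendsto (fun F : (∀ i, Finset (κA i)) =>
      (n : ℝ) * (∑ i, ∑ x ∈ F i, sA i x ^ p) ^ (q / p)) (Filter.pi fun i => atTop)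
      (𝓝 (n * (∑ i, (trAbsPow b p (A i)).toReal) ^ (q / p))) := by
    refine Tendsto.const_mul _ (Tendsto.rpow_const ?_ (Or.inr (by positivity)))
    refine tendsto_finsetSum _ fun i _ => ?_
    exact (hTA i).comp (tendsto_eval_pi _ i)
  exact le_of_tendsto hlim (Filter.Eventually.of_forall key)

theorem q2 (b : HilbertBasis ι ℂ H) {n : ℕ} {p q : ℝ} (hp1 : 1 < p) (hp2 : p ≤ 2)
    (hpq : 1 / p + 1 / q = 1)
    (A : Fin n → (H →L[ℂ] H)) (hA : ∀ i, IsSchatten b p (A i)) :
    ∑ k, (trAbsPow b p (BB A k)).toReal ^ (q / p) ≤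
      n * (∑ i, (trAbsPow b p (A i)).toReal) ^ (q / p) := by
  classical
  have hp0 : 0 < p := by linarith
  obtain ⟨hq0, hpq1, hqp⟩ := q_facts hp1 hpq
  have hqp' : p ≤ q := by nlinarith
  have hB := BB_schatten b hp0 A hA
  choose κA eA fA sA hAe hAf hAs hAX hAsum hAtr using fun i => exists_svd b (hA i).1
  choose κB eB fB sB hBe hBf hBs hBX hBsum hBtr using fun k => exists_svd b (hB k).1
  have hTA := fun i => hasSum_T b (hA i) (hAs i) (hAtr i p hp0)
  have hTB := fun k => hasSum_T b (hB k) (hBs k) (hBtr k p hp0)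
  set S := ∑ i, (trAbsPow b p (A i)).toReal with hS
  have hS0 : 0 ≤ S := Finset.sum_nonneg fun k _ => ENNReal.toReal_nonneg
  have key : ∀ G : (∀ k, Finset (κB k)), ∑ k, (∑ l ∈ G k, sB k l ^ p) ^ (q / p) ≤
      n * S ^ (q / p) := by
    intro G
    set U : KK n → ℝ := fun k => ∑ l ∈ G k, sB k l ^ p with hU
    have hU0 : ∀ k, 0 ≤ U k := fun k => Finset.sum_nonneg fun l _ => Real.rpow_nonneg (hBs k l).le _
    set W := ∑ k, U k ^ (q / p) with hW
    have hW0 : 0 ≤ W := Finset.sum_nonneg fun k _ => Real.rpow_nonneg (hU0 k) _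
    refine arith2 (Nat.cast_nonneg n) hW0 hS0 hp0 hq0 hpq ?_
    let y : (Σ k, {l // l ∈ G k}) → ℂ := fun w =>
      ((sB w.1 w.2.1 ^ (p - 1) * U w.1 ^ ((q - p) / p) : ℝ) : ℂ)
    have hE : ∀ k, EE (Sigma.fst : (Σ k, {l // l ∈ G k}) → KK n) q y k ^ (p / q) = U k ^ (q / p) := by
      intro k
      rw [EE_sigma]
      have e1 : ∑ l : {l // l ∈ G k}, ‖y ⟨k, l⟩‖ ^ q = U k * U k ^ ((q - p) / p * q) := by
        have e2 : ∀ l : {l // l ∈ G k}, ‖y ⟨k, l⟩‖ ^ q = sB k l.1 ^ p * U k ^ ((q - p) / p * q) := by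
          intro l
          simp only [y]
          rw [norm_ofReal_rpow (by have := hBs k l.1; have := hU0 k; positivity),
            Real.mul_rpow (by have := hBs k l.1; positivity) (Real.rpow_nonneg (hU0 k) _),
            ← Real.rpow_mul (hBs _ _).le, ← Real.rpow_mul (hU0 k), hpq1]
        simp_rw [e2]
        rw [← Finset.sum_mul, Finset.sum_coe_sort (G k) (fun l => sB k l ^ p)]
      rw [e1]
      rcases (hU0 k).eq_or_lt with h0 | hpos
      · rw [← h0, zero_mul, Real.zero_rpow (by positivity), Real.zero_rpow (by positivity)]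
      · rw [Real.mul_rpow hpos.le (Real.rpow_nonneg hpos.le _), ← Real.rpow_mul hpos.le,
          ← Real.rpow_add hpos]
        congr 1
        have h2 : (q - p) / p * q * (p / q) = q - p := by field_simp
        rw [h2, hqp]
        have h3 : p / q = p - 1 := by
          rw [div_eq_iff hq0.ne']
          linarith
        rw [h3]
        ring
    let L : (∀ i, Finset (κA i)) → ℂ := fun F => ∑ w : (Σ k, {l // l ∈ G k}), ∑ i,
      y w * ((tt n w.1 i : ℂ) * ∑ x ∈ F i, (sA i x : ℂ) *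
        (⟪fB w.1 w.2.1, fA i x⟫_ℂ * ⟪eA i x, eB w.1 w.2.1⟫_ℂ))
    have hLim : Tendsto L (Filter.pi fun i => atTop) (𝓝 (W : ℂ)) := by
      have h1 : Tendsto L (Filter.pi fun i => atTop) (𝓝 (∑ w : (Σ k, {l // l ∈ G k}), ∑ i,
          y w * ((tt n w.1 i : ℂ) * ⟪fB w.1 w.2.1, A i (eB w.1 w.2.1)⟫_ℂ))) := by
        refine tendsto_finsetSum _ fun w _ => tendsto_finsetSum _ fun i _ => ?_
        refine Tendsto.const_mul _ (Tendsto.const_mul _ ?_)
        exact (hAsum i (eB w.1 w.2.1) (fB w.1 w.2.1)).comp (tendsto_eval_pi _ i)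
      have h2 : (∑ w : (Σ k, {l // l ∈ G k}), ∑ i,
          y w * ((tt n w.1 i : ℂ) * ⟪fB w.1 w.2.1, A i (eB w.1 w.2.1)⟫_ℂ)) = (W : ℂ) := by
        have e1 : ∀ w : (Σ k, {l // l ∈ G k}), ∑ i,
            y w * ((tt n w.1 i : ℂ) * ⟪fB w.1 w.2.1, A i (eB w.1 w.2.1)⟫_ℂ)
            = ((sB w.1 w.2.1 ^ p * U w.1 ^ ((q - p) / p) : ℝ) : ℂ) := by
          intro w
          rw [← Finset.mul_sum]
          have e2 : ∑ i, (tt n w.1 i : ℂ) * ⟪fB w.1 w.2.1, A i (eB w.1 w.2.1)⟫_ℂ
              = ⟪fB w.1 w.2.1, BB A w.1 (eB w.1 w.2.1)⟫_ℂ := by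
            unfold BB
            rw [_root_.sum_apply, inner_sum]
            refine Finset.sum_congr rfl fun i _ => ?_
            rw [_root_.smul_apply, inner_smul_right]
          rw [e2, hBX, inner_smul_right]
          have : ⟪fB w.1 w.2.1, fB w.1 w.2.1⟫_ℂ = 1 := by
            rw [inner_self_eq_norm_sq_to_K, (hBf w.1).1]
            simp
          rw [this]
          simp only [y]
          have e3 : sB w.1 w.2.1 ^ p = sB w.1 w.2.1 ^ (p - 1) * sB w.1 w.2.1 := by
            rw [← Real.rpow_add_one (hBs _ _).ne']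
            congr 1
            ring
          rw [e3]
          push_cast
          ring
        simp_rw [e1]
        rw [← Complex.ofReal_sum]
        congr 1
        rw [sum_sigma_coe G (fun k l => sB k l ^ p * U k ^ ((q - p) / p))]
        refine Finset.sum_congr rfl fun k _ => ?_
        rw [← Finset.sum_mul]
        show U k * U k ^ ((q - p) / p) = _
        rcases (hU0 k).eq_or_lt with h0 | hpos
        · rw [← h0, zero_mul, Real.zero_rpow (by positivity)]
        · nth_rewrite 1 [← Real.rpow_one (U k)]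
          rw [← Real.rpow_add hpos]
          congr 1
          field_simp
          ring
      rwa [h2] at h1
    have hbd : ∀ F, ‖L F‖ ≤ (n : ℝ) ^ (1 / q) * S ^ (1 / p) * W ^ (1 / p) := by
      intro F
      let z : (Σ i, {x // x ∈ F i}) → ℂ := fun w => ((sA w.1 w.2.1 : ℝ) : ℂ)
      have h := bilinear (tt n) (Sigma.fst : (Σ i, {x // x ∈ F i}) → Fin n)
        (Sigma.fst : (Σ k, {l // l ∈ G k}) → KK n)
        (fun w => eA w.1 w.2.1) (fun w => fA w.1 w.2.1) (fun w => eB w.1 w.2.1)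
        (fun w => fB w.1 w.2.1)
        (sigma_fibON (fun i (x : {x // x ∈ F i}) => eA i x.1)
          (fun i => (hAe i).comp _ Subtype.val_injective))
        (sigma_fibON (fun i (x : {x // x ∈ F i}) => fA i x.1)
          (fun i => (hAf i).comp _ Subtype.val_injective))
        (sigma_fibON (fun i (x : {x // x ∈ G i}) => eB i x.1)
          (fun i => (hBe i).comp _ Subtype.val_injective))
        (sigma_fibON (fun i (x : {x // x ∈ G i}) => fB i x.1)
          (fun i => (hBf i).comp _ Subtype.val_injective))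
        (N := (n : ℝ)) (Nat.cast_nonneg n) (tt_le n) (fun r X => (tt_norm n X).le) hp1 hp2 hpq z y
      have hz : ∑ w, ‖z w‖ ^ p ≤ S := by
        have e : ∀ w : (Σ i, {x // x ∈ F i}), ‖z w‖ ^ p = sA w.1 w.2.1 ^ p := fun w =>
          norm_ofReal_rpow (hAs _ _).le p
        simp_rw [e]
        rw [sum_sigma_coe F (fun i x => sA i x ^ p)]
        refine Finset.sum_le_sum fun i _ => ?_
        exact sum_le_hasSum _ (fun x _ => Real.rpow_nonneg (hAs i x).le _) (hTA i)
      have hL : L F = ∑ u, ∑ v, MM (tt n) (Sigma.fst : (Σ i, {x // x ∈ F i}) → Fin n)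
        (Sigma.fst : (Σ k, {l // l ∈ G k}) → KK n)
        (fun w => eA w.1 w.2.1) (fun w => fA w.1 w.2.1) (fun w => eB w.1 w.2.1)
        (fun w => fB w.1 w.2.1) u v * z u * y v := by
        rw [Finset.sum_comm]
        refine Finset.sum_congr rfl fun w _ => ?_
        refine Eq.trans ?_ (sum_sigma_coe F (fun i x => ((tt n w.1 i : ℂ) *
          (⟪eA i x, eB w.1 w.2.1⟫_ℂ * ⟪fB w.1 w.2.1, fA i x⟫_ℂ)) * (sA i x : ℂ) * y w)).symm
        refine Finset.sum_congr rfl fun i _ => ?_
        rw [Finset.mul_sum, Finset.mul_sum]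
        refine Finset.sum_congr rfl fun l _ => ?_
        ring
      simp_rw [hE] at h
      rw [← hL] at h
      refine h.trans ?_
      have h5 : (∑ w, ‖z w‖ ^ p) ^ (1 / p) ≤ S ^ (1 / p) := by
        refine Real.rpow_le_rpow ?_ hz (by positivity)
        exact Finset.sum_nonneg fun k _ => by positivity
      gcongr
    have h6 := le_of_tendsto hLim.norm (Filter.Eventually.of_forall hbd)
    rwa [Complex.norm_real, Real.norm_of_nonneg hW0] at h6
  have hlim : Tendsto (fun G : (∀ k, Finset (κB k)) =>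
      ∑ k, (∑ l ∈ G k, sB k l ^ p) ^ (q / p)) (Filter.pi fun i => atTop)
      (𝓝 (∑ k, (trAbsPow b p (BB A k)).toReal ^ (q / p))) := by
    refine tendsto_finsetSum _ fun k _ => ?_
    refine Tendsto.rpow_const ?_ (Or.inr (by positivity))
    exact (hTB k).comp (tendsto_eval_pi _ k)
  exact le_of_tendsto hlim (Filter.Eventually.of_forall key)

end Pool.Agent.Helper960.Clark
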