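import Pool.Agent.Helper526.Sch.Classes
import Pool.Agent.Helper960.Clark.Kernel

set_option autoImplicit false
set_option linter.unusedSectionVars false

open scoped InnerProductSpace ENNReal

namespace Pool.Agent.Helper960.Clark

open Pool.Agent.Helper526.Sch

universe u v

variable {ι : Type v} {H : Type u} [NormedAddCommGroup H] [InnerProductSpace ℂ H] [CompleteSpace H]

/-- Schmidt decomposition -/
lemma exists_svd (b : HilbertBasis ι ℂ H) {X : H →L[ℂ] H} (hX : IsCompactOperator X) :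
    ∃ (κ : Type u) (e f : κ → H) (s : κ → ℝ), Orthonormal ℂ e ∧ Orthonormal ℂ f ∧
      (∀ i, 0 < s i) ∧ (∀ i, X (e i) = (s i : ℂ) • f i) ∧
      (∀ x y, HasSum (fun i => (s i : ℂ) * (⟪y, f i⟫_ℂ * ⟪e i, x⟫_ℂ)) ⟪y, X x⟫_ℂ) ∧
      ∀ p : ℝ, 0 < p → trAbsPow b p X = ∑' i, ENNReal.ofReal (s i ^ p) := by
  classical
  obtain ⟨κ, v, lam, hv⟩ := exists_eigenbasis' (Cpt.of_compact hX).1
  have hlam := eigen_nonneg v hv
  let κ' := {k : κ // X (v k) ≠ 0}
  let s : κ' → ℝ := fun i => ‖X (v i.1)‖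
  have hs : ∀ i, 0 < s i := fun i => norm_pos_iff.2 i.2
  let f : κ' → H := fun i => (((s i)⁻¹ : ℝ) : ℂ) • X (v i.1)
  have hf1 : ∀ i, X (v i.1) = (s i : ℂ) • f i := by
    intro i
    simp only [f]
    rw [smul_smul, ← Complex.ofReal_mul, mul_inv_cancel₀ (hs i).ne', Complex.ofReal_one, one_smul]
  refine ⟨κ', fun i => v i.1, f, s, v.orthonormal.comp _ Subtype.val_injective, ?_, hs, hf1, ?_, ?_⟩
  · rw [orthonormal_iff_ite]
    intro i j
    simp only [f]
    rw [inner_smul_left, inner_smul_right]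
    have h1 : ⟪X (v i.1), X (v j.1)⟫_ℂ = ⟪v i.1, (star X * X) (v j.1)⟫_ℂ :=
      (ContinuousLinearMap.adjoint_inner_right X (v i.1) (X (v j.1))).symm
    rw [h1, hv j.1, inner_smul_right, (orthonormal_iff_ite.1 v.orthonormal) i.1 j.1]
    by_cases hij : i = j
    · subst hij
      simp only [if_true, mul_one, Complex.conj_ofReal]
      rw [hlam i.1, ← Complex.ofReal_mul, ← Complex.ofReal_mul]
      have : (s i)⁻¹ * ((s i)⁻¹ * ‖X (v i.1)‖ ^ 2) = 1 := by
        have h0 := (hs i).ne'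
        have : ‖X (v i.1)‖ = s i := rfl
        rw [this]
        field_simp
      rw [this, Complex.ofReal_one]
    · have h2 : i.1 ≠ j.1 := fun h => hij (Subtype.ext h)
      simp [hij, h2]
  · intro x y
    have h1 := ((v.hasSum_repr x).mapL X).mapL (innerSL ℂ y)
    simp only [innerSL_apply_apply, map_smul, smul_eq_mul] at h1
    have h2 : HasSum ((fun k => v.repr x k * ⟪y, X (v k)⟫_ℂ) ∘ (Subtype.val : κ' → κ)) ⟪y, X x⟫_ℂ := by
      refine (hasSum_subtype_iff_of_support_subset (s := {k : κ | X (v k) ≠ 0}) ?_).2 h1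
      intro k hk
      by_contra hne
      have : X (v k) = 0 := by simpa using hne
      apply hk
      simp [this]
    convert h2 using 1
    funext i
    have e1 : ((fun k => v.repr x k * ⟪y, X (v k)⟫_ℂ) ∘ (Subtype.val : κ' → κ)) i
        = ⟪v i.1, x⟫_ℂ * ((s i : ℂ) * ⟪y, f i⟫_ℂ) := by
      have e2 : (s i : ℂ) * ⟪y, f i⟫_ℂ = ⟪y, X (v i.1)⟫_ℂ :=
        ((congrArg (fun z => ⟪y, z⟫_ℂ) (hf1 i)).trans (inner_smul_right _ _ _)).symm
      rw [e2, ← v.repr_apply_apply]
      rfl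
    rw [e1]
    show (s i : ℂ) * (⟪y, f i⟫_ℂ * ⟪v i.1, x⟫_ℂ) = _
    ring
  · intro p hp
    rw [trAbsPow_eq b v hv hp]
    rw [← tsum_subtype_eq_of_support_subset (s := {k : κ | X (v k) ≠ 0})]
    · refine tsum_congr fun i => ?_
      rw [hlam i.1, rpow_two_mul_half (norm_nonneg _)]
    · intro k hk
      by_contra hne
      have h0 : X (v k) = 0 := by simpa using hne
      apply hk
      simp only
      rw [hlam k, h0]
      simp [Real.zero_rpow (show p / 2 ≠ 0 by positivity)]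

lemma sigma_fibON {J : Type*} [DecidableEq J] {S : J → Type*} (w : ∀ i, S i → H)
    (h : ∀ i, Orthonormal ℂ (w i)) :
    FibON (Sigma.fst : (Σ i, S i) → J) (fun x => w x.1 x.2) := by
  intro i
  let g : {x : Σ i, S i // x.1 = i} → S i := fun x => x.2 ▸ x.1.2
  have hg : Function.Injective g := by
    rintro ⟨⟨a, x⟩, ha⟩ ⟨⟨c, y⟩, hc⟩ hxy
    simp only at ha hc
    subst ha
    subst hc
    simp only [g] at hxy
    subst hxy
    rfl
  have h2 := (h i).comp g hg
  convert h2 using 1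
  funext x
  obtain ⟨⟨a, x⟩, ha⟩ := x
  simp only at ha
  subst ha
  rfl

lemma EE_sigma {K : Type*} [Fintype K] [DecidableEq K] {S : K → Type*} [∀ k, Fintype (S k)] (q : ℝ)
    (y : (Σ k, S k) → ℂ) (k : K) :
    EE (Sigma.fst : (Σ k, S k) → K) q y k = ∑ l, ‖y ⟨k, l⟩‖ ^ q := by
  unfold EE
  rw [Finset.sum_filter, Fintype.sum_sigma, Finset.sum_eq_single k]
  · simp
  · intro k' _ hk'
    simp [hk']
  · simp

end Pool.Agent.Helper960.Clark
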